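import Pool.Agent.TH879.MS.Tail

set_option autoImplicit false

/-!
# The second Kahn-Kalai conjecture with a logarithm of the number of vertices
-/

namespace Pool.Agent.Y976.KK

open Pool.Agent.TH965 Pool.Agent.TH879.MS

/-- the number of edges of a graph on `m` vertices -/
theorem edge_bound {m : ℕ} (H : SimpleGraph (Fin m)) : H.edgeSet.ncard ≤ m.choose 2 := by
  classical
  have h := SimpleGraph.card_edgeFinset_le_card_choose_two (G := H)
  rw [Fintype.card_fin] at h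
  rw [← Nat.card_coe_set_eq, Nat.card_eq_fintype_card, ← SimpleGraph.edgeFinset_card]
  convert h

theorem nat_log_bound {m e : ℕ} (hm : 2 ≤ m) (he1 : 1 ≤ e) (he : e ≤ m.choose 2) :
    ((Nat.log 2 e + 1 : ℕ) : ℝ) ≤ 3 * Real.log m := by
  have hlog2 : 0.69 < Real.log 2 := by have := Real.log_two_gt_d9; linarith
  have h1 : 2 ^ (Nat.log 2 e) ≤ e := Nat.pow_log_le_self 2 (by omega)
  have h2 : 2 ^ (Nat.log 2 e + 1) ≤ m * m := by
    have h3 : 2 * m.choose 2 ≤ m * m := by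
      rw [Nat.choose_two_right, Nat.mul_div_cancel' (Nat.even_mul_pred_self m).two_dvd]
      exact Nat.mul_le_mul_left m (Nat.sub_le m 1)
    calc 2 ^ (Nat.log 2 e + 1) = 2 * 2 ^ (Nat.log 2 e) := by ring
      _ ≤ 2 * e := Nat.mul_le_mul_left 2 h1
      _ ≤ 2 * m.choose 2 := Nat.mul_le_mul_left 2 he
      _ ≤ m * m := h3
  have h3 : ((2 : ℝ)) ^ (Nat.log 2 e + 1) ≤ (m : ℝ) * m := by exact_mod_cast h2
  have hm0 : (0 : ℝ) < m := by positivity
  have h4 := Real.log_le_log (by positivity) h3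
  rw [Real.log_pow, Real.log_mul (by positivity) (by positivity)] at h4
  have hlm : 0 ≤ Real.log m := Real.log_nonneg (by exact_mod_cast (by omega : 1 ≤ m))
  have h5 : (0 : ℝ) ≤ ((Nat.log 2 e + 1 : ℕ) : ℝ) := by positivity
  nlinarith

theorem sum_bound {n m : ℕ} (hm : 2 ≤ m) (hmn : m ≤ n) (H : SimpleGraph (Fin m)) (hH : H ≠ ⊥) :
    ∑ j ∈ Finset.range (Nat.log 2 H.edgeSet.ncard + 1), pEk n (2 ^ j) H
      ≤ 3 * (pE n H * Real.log m) := by
  have hedge : 1 ≤ H.edgeSet.ncard := by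
    rw [Nat.one_le_iff_ne_zero, Ne, Set.ncard_eq_zero]
    intro he
    exact hH (SimpleGraph.edgeSet_eq_empty.mp he)
  have h1 : ∀ j ∈ Finset.range (Nat.log 2 H.edgeSet.ncard + 1), pEk n (2 ^ j) H ≤ pE n H := by
    intro j _
    rw [← pEk_one hmn H]
    exact pEk_anti hmn H (Nat.one_le_two_pow)
  have h2 := Finset.sum_le_card_nsmul _ _ _ h1
  rw [Finset.card_range, nsmul_eq_mul] at h2
  have h3 := nat_log_bound hm hedge (edge_bound H)
  have h4 : 0 ≤ pE n H := by rw [← pEk_one hmn H]; exact pEk_nonneg hmn 1 H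
  calc _ ≤ _ := h2
    _ ≤ (3 * Real.log m) * pE n H := mul_le_mul_of_nonneg_right h3 h4
    _ = _ := by ring

/-- tail bound -/
theorem tail {n m : ℕ} (hm : 2 ≤ m) (hmn : m ≤ n) (H : SimpleGraph (Fin m)) (hH : H ≠ ⊥)
    (t : ℝ) (p : ℝ) (hp0 : 0 ≤ p) (hp1 : p ≤ 1)
    (hp : (240000000 + 4000000 * t) * (pE n H * Real.log m) ≤ p) :
    1 - (m : ℝ) ^ (-t) ≤ gnp n p (fun G => H.IsContained G) := by
  have h1 := threshold_tail hmn H hH p hp0 hp1
  have h2 := sum_bound hm hmn H hH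
  have hE : 0 < pE n H := pE_pos hmn H hH
  have hm0 : (0 : ℝ) < m := by positivity
  have h3 : (80000000 * ∑ κ ∈ Finset.range (Nat.log 2 H.edgeSet.ncard + 1), pEk n (2 ^ κ) H
          - p) / (4000000 * pE n H) ≤ - (t * Real.log m) := by
    rw [div_le_iff₀ (by positivity)]
    nlinarith
  have h4 : Real.exp (- (t * Real.log m)) = (m : ℝ) ^ (-t) := by
    rw [Real.rpow_def_of_pos hm0]
    congr 1
    ring
  have h5 := Real.exp_le_exp.mpr h3
  rw [h4] at h5
  linarith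

theorem thr {n m : ℕ} (hm : 2 ≤ m) (hmn : m ≤ n) (H : SimpleGraph (Fin m)) (hH : H ≠ ⊥)
    (pc : ℝ) (hp0 : 0 ≤ pc) (hp1 : pc ≤ 1)
    (hpc : gnp n pc (fun G => H.IsContained G) = 1 / 2) :
    pc ≤ 250000000 * (pE n H * Real.log m) := by
  have h1 := threshold_tail hmn H hH pc hp0 hp1
  have h2 := sum_bound hm hmn H hH
  have hE : 0 < pE n H := pE_pos hmn H hH
  have hlog2 : 0.69 < Real.log 2 := by have := Real.log_two_gt_d9; linarith
  have hlog2' : Real.log 2 < 0.7 := by have := Real.log_two_lt_d9; linarith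
  have hlm : Real.log 2 ≤ Real.log m := Real.log_le_log (by norm_num) (by exact_mod_cast hm)
  have h3 : Real.exp (- Real.log 2) ≤ Real.exp
      ((80000000 * ∑ κ ∈ Finset.range (Nat.log 2 H.edgeSet.ncard + 1), pEk n (2 ^ κ) H
          - pc) / (4000000 * pE n H)) := by
    rw [Real.exp_neg, Real.exp_log (by norm_num)]
    linarith
  have h4 := Real.exp_le_exp.mp h3
  rw [le_div_iff₀ (by positivity)] at h4
  nlinarith

end Pool.Agent.Y976.KK
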